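import Pool.Agent.H28.GN.T4

/-!
Theorem G: the rows `BRW`, `PZ1`, `MZ1`, `MZ2` (box averages).
-/

set_option autoImplicit false

open Filter Topology Finset

namespace Pool.Agent.H97.GNG

open Pool.Agent.H28.GN

/-- sums over `range (M * N)` by blocks -/
theorem sum_blocks {E : Type*} [AddCommMonoid E] (M N : ℕ) (f : ℕ → E) :
    ∑ x ∈ range (M * N), f x = ∑ b ∈ range M, ∑ x ∈ range N, f (N * b + x) := by
  induction M with
  | zero => simp
  | succ M ih =>
    rw [Finset.sum_range_succ, ← ih, Nat.succ_mul, Finset.sum_range_add, Nat.mul_comm M N]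

/-- exchange -/
theorem exch {E : Type*} [AddCommMonoid E] {ι κ μ : Type*} (X : Finset ι) (Y : Finset κ)
    (B : Finset μ) (f : ι → κ → μ → E) :
    ∑ x ∈ X, ∑ y ∈ Y, ∑ b ∈ B, f x y b = ∑ b ∈ B, ∑ x ∈ X, ∑ y ∈ Y, f x y b := by
  rw [Finset.sum_comm' (s := B) (t := fun _ => X) (t' := X) (s' := fun _ => B)
    (by intro x y; tauto)]
  apply Finset.sum_congr rfl
  intro x _
  exact Finset.sum_comm

/-- exchange of two pairs -/
theorem exch2 {E : Type*} [AddCommMonoid E] {ι κ μ τ : Type*} (X : Finset ι) (Y : Finset κ)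
    (B : Finset μ) (C : Finset τ) (f : ι → κ → μ → τ → E) :
    ∑ x ∈ X, ∑ y ∈ Y, ∑ b ∈ B, ∑ c ∈ C, f x y b c =
      ∑ b ∈ B, ∑ c ∈ C, ∑ x ∈ X, ∑ y ∈ Y, f x y b c := by
  rw [exch X Y B (fun x y b => ∑ c ∈ C, f x y b c)]
  apply Finset.sum_congr rfl
  intro b _
  exact exch X Y C (fun x y c => f x y b c)

/-- convexity -/
theorem norm_sum_sq_le (M : ℕ) (z : ℕ → ℂ) :
    ‖∑ b ∈ range M, z b‖ ^ 2 ≤ M * ∑ b ∈ range M, ‖z b‖ ^ 2 := by
  have h1 : ‖∑ b ∈ range M, z b‖ ≤ ∑ b ∈ range M, ‖z b‖ := norm_sum_le _ _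
  have h2 : (∑ b ∈ range M, ‖z b‖) ^ 2 ≤ (range M).card * ∑ b ∈ range M, ‖z b‖ ^ 2 :=
    sq_sum_le_card_mul_sum_sq
  rw [Finset.card_range] at h2
  exact (pow_le_pow_left₀ (norm_nonneg _) h1 2).trans h2

theorem MZ2_aux (c H K M : ℕ) (hK : 0 < K) (hM : 0 < M) (J : ℕ) :
    ∀ (Φ : ℤ → ℂ) (m : ℤ),
      DZ c H (M * K) J Φ m ≤ (∑ b ∈ range M, DZ c H K J Φ (m + K * b)) / M := by
  induction J with
  | zero =>
    intro Φ m
    have hK' : (0 : ℝ) < K := by exact_mod_cast hK
    have hM' : (0 : ℝ) < M := by exact_mod_cast hM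
    simp only [DZ, norm_div, Complex.norm_natCast, div_pow]
    rw [← Finset.sum_div, sum_blocks, Nat.cast_mul]
    have h1 := norm_sum_sq_le M (fun b => ∑ x ∈ range K, Φ (m + ((K * b + x : ℕ) : ℤ) + 1))
    have h2 : ∀ b ∈ range M, ‖∑ x ∈ range K, Φ (m + ((K * b + x : ℕ) : ℤ) + 1)‖ ^ 2 =
        ‖∑ k ∈ range K, Φ (m + K * b + k + 1)‖ ^ 2 := by
      intro b _
      congr 2
      apply Finset.sum_congr rfl
      intro x _
      congr 1
      push_cast
      ring
    rw [Finset.sum_congr rfl h2] at h1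
    rw [div_div, div_le_div_iff₀ (by positivity) (by positivity)]
    nlinarith [h1, sq_nonneg (K : ℝ), mul_pos hK' hM', pow_pos hK' 2]
  | succ J ih =>
    intro Φ m
    simp only [DZ]
    rw [← Finset.sum_div, div_right_comm]
    apply div_le_div_of_nonneg_right _ (by positivity)
    rw [← exch, Finset.sum_div]
    apply Finset.sum_le_sum
    intro x _
    rw [Finset.sum_div]
    apply Finset.sum_le_sum
    intro y _
    exact ih _ _

theorem pf_MZ2 : T_MZ2 := fun c H K M J Φ m _ hK hM => MZ2_aux c H K M hK hM J Φ m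

/-- translations -/
theorem DZ_shift (c H K J : ℕ) : ∀ (Φ : ℤ → ℂ) (m s : ℤ),
    DZ c H K J (fun a => Φ (a + s)) m = DZ c H K J Φ (m + s) := by
  induction J with
  | zero =>
    intro Φ m s
    simp only [DZ]
    congr 3
    apply Finset.sum_congr rfl
    intro k _
    congr 1
    ring
  | succ J ih =>
    intro Φ m s
    simp only [DZ]
    congr 1
    apply Finset.sum_congr rfl
    intro x _
    apply Finset.sum_congr rfl
    intro y _
    rw [← ih]
    congr 1
    funext a
    rw [show a + c * x + s = a + s + c * x by ring, show a + c * y + s = a + s + c * y by ring]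

/-- the identity of the case `J = 0` -/
theorem gram (S K : ℕ) (A : ℕ → ℕ → ℂ) :
    (∑ x ∈ range S, ∑ y ∈ range S, ‖∑ k ∈ range K, A x k * cj (A y k)‖ ^ 2 : ℝ) =
      ∑ k ∈ range K, ∑ l ∈ range K, ‖∑ x ∈ range S, A x k * cj (A x l)‖ ^ 2 := by
  have key : ∀ (z : ℂ), ((‖z‖ ^ 2 : ℝ) : ℂ) = z * cj z := by
    intro z
    rw [cj, Complex.mul_conj, Complex.normSq_eq_norm_sq]
  apply Complex.ofReal_injective
  push_cast
  have h1 : ∀ x y, (((‖∑ k ∈ range K, A x k * cj (A y k)‖ : ℝ) : ℂ)) ^ 2 =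
      ∑ k ∈ range K, ∑ l ∈ range K, A x k * cj (A y k) * (cj (A x l) * A y l) := by
    intro x y
    have := key (∑ k ∈ range K, A x k * cj (A y k))
    push_cast at this
    rw [this, cj, map_sum, Finset.sum_mul_sum]
    apply Finset.sum_congr rfl
    intro k _
    apply Finset.sum_congr rfl
    intro l _
    simp [cj]
  have h2 : ∀ k l, (((‖∑ x ∈ range S, A x k * cj (A x l)‖ : ℝ) : ℂ)) ^ 2 =
      ∑ x ∈ range S, ∑ y ∈ range S, A x k * cj (A x l) * (cj (A y k) * A y l) := by
    intro k l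
    have := key (∑ x ∈ range S, A x k * cj (A x l))
    push_cast at this
    rw [this, cj, map_sum, Finset.sum_mul_sum]
    apply Finset.sum_congr rfl
    intro x _
    apply Finset.sum_congr rfl
    intro y _
    simp [cj]
  simp_rw [h1, h2]
  rw [exch2]
  apply Finset.sum_congr rfl; intro k _
  apply Finset.sum_congr rfl; intro l _
  apply Finset.sum_congr rfl; intro x _
  apply Finset.sum_congr rfl; intro y _
  ring

theorem PZ1_aux (c H K N M : ℕ) (hH : 0 < H) (hK : 0 < K) (hN : 0 < N) (hM : 0 < M) (J : ℕ) :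
    ∀ (Ψ : ℕ → ℤ → ℂ) (m : ℤ),
    (∑ x ∈ range (M * N), ∑ y ∈ range (M * N),
      DZ c H K J (fun a => Ψ x a * cj (Ψ y a)) m) / ((M : ℝ) * N) ^ 2 ≤
    (∑ b ∈ range M, (∑ x ∈ range N, ∑ y ∈ range N,
      DZ c H K J (fun a => Ψ (N * b + x) a * cj (Ψ (N * b + y) a)) m) / (N : ℝ) ^ 2) / M := by
  have hK' : (0 : ℝ) < K := by exact_mod_cast hK
  have hM' : (0 : ℝ) < M := by exact_mod_cast hM
  have hN' : (0 : ℝ) < N := by exact_mod_cast hN
  have hH' : (0 : ℝ) < H := by exact_mod_cast hH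
  induction J with
  | zero =>
    intro Ψ m
    simp only [DZ, norm_div, Complex.norm_natCast, div_pow]
    simp_rw [← Finset.sum_div]
    have h1 := gram (M * N) K (fun x k => Ψ x (m + k + 1))
    have h2 := fun b => gram N K (fun x k => Ψ (N * b + x) (m + k + 1))
    rw [h1]
    simp_rw [h2]
    have h3 : ∑ k ∈ range K, ∑ l ∈ range K,
        ‖∑ x ∈ range (M * N), Ψ x (m + k + 1) * cj (Ψ x (m + l + 1))‖ ^ 2 ≤
        M * ∑ b ∈ range M, ∑ k ∈ range K, ∑ l ∈ range K,
        ‖∑ x ∈ range N, Ψ (N * b + x) (m + k + 1) * cj (Ψ (N * b + x) (m + l + 1))‖ ^ 2 := by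
      rw [← exch, Finset.mul_sum]
      apply Finset.sum_le_sum
      intro k _
      rw [Finset.mul_sum]
      apply Finset.sum_le_sum
      intro l _
      rw [sum_blocks]
      exact norm_sum_sq_le M _
    rw [div_div, div_div, div_div, div_le_div_iff₀ (by positivity) (by positivity)]
    have h4 : (0 : ℝ) < (K : ℝ) ^ 2 * (N : ℝ) ^ 2 * M := by positivity
    have h5 := mul_le_mul_of_nonneg_right h3 h4.le
    refine le_trans (le_of_eq ?_) (h5.trans (le_of_eq ?_))
    · ring
    · ring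
  | succ J ih =>
    intro Ψ m
    have e0 : ∀ (x' y' x y : ℕ), DZ c H K J (fun a =>
          Ψ x (a + c * x') * cj (Ψ y (a + c * x')) *
            cj (Ψ x (a + c * y') * cj (Ψ y (a + c * y')))) m =
        DZ c H K J (fun a => (fun x a => Ψ x (a + c * x') * cj (Ψ x (a + c * y'))) x a *
            cj ((fun x a => Ψ x (a + c * x') * cj (Ψ x (a + c * y'))) y a)) m := by
      intro x' y' x y
      congr 1
      funext a
      simp only [cj, map_mul, Complex.conj_conj]
      ring
    simp only [DZ]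
    simp_rw [e0]
    simp_rw [← Finset.sum_div]
    rw [exch2]
    have e1 : ∑ b ∈ range M, ∑ x ∈ range N, ∑ y ∈ range N, ∑ x' ∈ range H, ∑ y' ∈ range H,
        DZ c H K J (fun a => (fun x a => Ψ x (a + c * x') * cj (Ψ x (a + c * y'))) (N * b + x) a *
            cj ((fun x a => Ψ x (a + c * x') * cj (Ψ x (a + c * y'))) (N * b + y) a)) m =
      ∑ x' ∈ range H, ∑ y' ∈ range H, ∑ b ∈ range M, ∑ x ∈ range N, ∑ y ∈ range N,
        DZ c H K J (fun a => (fun x a => Ψ x (a + c * x') * cj (Ψ x (a + c * y'))) (N * b + x) a *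
            cj ((fun x a => Ψ x (a + c * x') * cj (Ψ x (a + c * y'))) (N * b + y) a)) m := by
      rw [exch (range H) (range H) (range M)]
      apply Finset.sum_congr rfl
      intro b _
      exact exch2 _ _ _ _ _
    rw [e1]
    rw [div_right_comm, div_right_comm _ ((H : ℝ) ^ 2), div_right_comm _ ((H : ℝ) ^ 2)]
    apply div_le_div_of_nonneg_right _ (by positivity)
    rw [Finset.sum_div, Finset.sum_div, Finset.sum_div]
    apply Finset.sum_le_sum
    intro x' _
    rw [Finset.sum_div, Finset.sum_div, Finset.sum_div]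
    apply Finset.sum_le_sum
    intro y' _
    have := ih (fun x a => Ψ x (a + c * x') * cj (Ψ x (a + c * y'))) m
    refine this.trans (le_of_eq ?_)
    rw [← Finset.sum_div]

theorem pf_PZ1 : T_PZ1 := fun c H K J N M Ψ m hH hK hN hM => PZ1_aux c H K N M hH hK hN hM J Ψ m

/-- the sum over the tuples with one coordinate more -/
theorem sum_pi_succ (J M : ℕ) (f : (Fin (J + 1) → ℕ) → ℝ) :
    ∑ b ∈ Fintype.piFinset (fun _ : Fin (J + 1) => range M), f b =
      ∑ b ∈ Fintype.piFinset (fun _ : Fin J => range M), ∑ x ∈ range M,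
        f (Fin.cons x b : Fin (J + 1) → ℕ) := by
  rw [← Finset.sum_product']
  refine Finset.sum_nbij' (fun b => (Fin.tail b, b 0)) (fun p => Fin.cons p.2 p.1) ?_ ?_ ?_ ?_ ?_
  · intro b hb
    rw [Fintype.mem_piFinset] at hb
    rw [Finset.mem_product, Fintype.mem_piFinset]
    exact ⟨fun i => hb _, hb _⟩
  · intro p hp
    rw [Finset.mem_product, Fintype.mem_piFinset] at hp
    rw [Fintype.mem_piFinset]
    intro i
    refine Fin.cases ?_ (fun i => ?_) i
    · simpa using hp.2
    · simpa using hp.1 i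
  · intro b _
    exact Fin.cons_self_tail b
  · intro p _
    simp
  · intro b _
    simp

theorem MZ1_aux (hP : T_PZ1) (c H K M : ℕ) (hH : 0 < H) (hK : 0 < K) (hM : 0 < M) (J : ℕ) :
    ∀ (Φ : ℤ → ℂ) (m : ℤ),
    DZ c (M * H) K J Φ m ≤ (∑ b ∈ Fintype.piFinset (fun _ : Fin J => range M),
      DZ c H K J Φ (m + c * (H * ∑ j, (b j : ℤ)))) / (M : ℝ) ^ J := by
  have hM' : (0 : ℝ) < M := by exact_mod_cast hM
  induction J with
  | zero =>
    intro Φ m
    simp [DZ]
  | succ J ih =>
    intro Φ m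
    have h1 : DZ c (M * H) K (J + 1) Φ m ≤
        (∑ x ∈ range (M * H), ∑ y ∈ range (M * H),
          (∑ b ∈ Fintype.piFinset (fun _ : Fin J => range M),
            DZ c H K J (fun a => Φ (a + c * x) * cj (Φ (a + c * y)))
              (m + c * (H * ∑ j, (b j : ℤ)))) / (M : ℝ) ^ J) / ((M : ℝ) * H) ^ 2 := by
      simp only [DZ]
      rw [Nat.cast_mul]
      apply div_le_div_of_nonneg_right _ (by positivity)
      apply Finset.sum_le_sum
      intro x _
      apply Finset.sum_le_sum
      intro y _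
      exact ih _ _
    have h2 : (∑ x ∈ range (M * H), ∑ y ∈ range (M * H),
          (∑ b ∈ Fintype.piFinset (fun _ : Fin J => range M),
            DZ c H K J (fun a => Φ (a + c * x) * cj (Φ (a + c * y)))
              (m + c * (H * ∑ j, (b j : ℤ)))) / (M : ℝ) ^ J) / ((M : ℝ) * H) ^ 2 =
        (∑ b ∈ Fintype.piFinset (fun _ : Fin J => range M),
          (∑ x ∈ range (M * H), ∑ y ∈ range (M * H),
            DZ c H K J (fun a => Φ (a + c * x) * cj (Φ (a + c * y)))
              (m + c * (H * ∑ j, (b j : ℤ)))) / ((M : ℝ) * H) ^ 2) / (M : ℝ) ^ J := by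
      simp_rw [← Finset.sum_div]
      rw [exch, div_right_comm]
    rw [h2] at h1
    refine h1.trans ?_
    rw [show (M : ℝ) ^ (J + 1) = M * (M : ℝ) ^ J by ring, ← div_div _ (M : ℝ) ((M : ℝ) ^ J)]
    apply div_le_div_of_nonneg_right _ (by positivity)
    rw [sum_pi_succ, Finset.sum_div]
    apply Finset.sum_le_sum
    intro b _
    refine (hP c H K J H M (fun x a => Φ (a + c * x)) (m + c * (H * ∑ j, (b j : ℤ)))
      hH hK hH hM).trans ?_
    apply div_le_div_of_nonneg_right _ hM'.le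
    apply Finset.sum_le_sum
    intro x _
    rw [DZ]
    apply div_le_div_of_nonneg_right _ (by positivity)
    apply Finset.sum_le_sum
    intro x' _
    apply Finset.sum_le_sum
    intro y' _
    apply le_of_eq
    have e1 : (m + (c : ℤ) * (H * ∑ j : Fin (J + 1), (((Fin.cons x b : Fin (J + 1) → ℕ) j : ℕ) : ℤ))) =
        (m + c * (H * ∑ j, (b j : ℤ))) + c * H * x := by
      rw [Fin.sum_univ_succ]
      simp only [Fin.cons_zero, Fin.cons_succ]
      ring
    rw [e1, ← DZ_shift c H K J (fun a => Φ (a + c * x') * cj (Φ (a + c * y'))) _ (c * H * x)]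
    congr 1
    funext a
    push_cast
    rw [show a + (c : ℤ) * (H * x + x') = a + c * H * x + c * x' by ring,
      show a + (c : ℤ) * (H * x + y') = a + c * H * x + c * y' by ring]

theorem pf_MZ1 (hP : T_PZ1) : T_MZ1 :=
  fun c H K M J Φ m hH hK hM => MZ1_aux hP c H K M hH hK hM J Φ m

/-! ### the two forms of the box averages -/

theorem cv_zero (ω : Fin 0 → Bool) (z : ℂ) : cv ω z = z := by
  simp [cv]

theorem card_cons {J : ℕ} (e : Bool) (ω : Fin J → Bool) :
    (univ.filter fun j => (Fin.cons e ω : Fin (J + 1) → Bool) j = true).card =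
      (if e = true then 1 else 0) + (univ.filter fun j => ω j = true).card := by
  rw [Finset.card_filter, Finset.card_filter, Fin.sum_univ_succ]
  simp only [Fin.cons_zero, Fin.cons_succ]

theorem cv_cons_false {J : ℕ} (ω : Fin J → Bool) (z : ℂ) :
    cv (Fin.cons false ω : Fin (J + 1) → Bool) z = cv ω z := by
  unfold cv
  rw [card_cons]
  simp

theorem cv_cons_true {J : ℕ} (ω : Fin J → Bool) (z : ℂ) :
    cv (Fin.cons true ω : Fin (J + 1) → Bool) z = cv ω (cj z) := by
  unfold cv cj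
  rw [card_cons]
  simp only [if_true, Nat.even_add, Nat.not_even_one, false_iff]
  by_cases h : Even (univ.filter fun j => ω j = true).card
  · rw [if_neg (by simpa using h), if_pos h]
  · rw [if_pos h, if_neg h, Complex.conj_conj]

theorem cv_mul {J : ℕ} (ω : Fin J → Bool) (z w : ℂ) : cv ω (z * w) = cv ω z * cv ω w := by
  unfold cv
  split_ifs
  · rfl
  · rw [map_mul]

theorem cv_prod {J : ℕ} (ω : Fin J → Bool) (s : Finset ℕ) (f : ℕ → ℂ) :
    cv ω (∏ i ∈ s, f i) = ∏ i ∈ s, cv ω (f i) := by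
  unfold cv
  split_ifs
  · rfl
  · rw [map_prod]

theorem norm_cv {J : ℕ} (ω : Fin J → Bool) (z : ℂ) : ‖cv ω z‖ = ‖z‖ := by
  unfold cv
  split_ifs
  · rfl
  · exact Complex.norm_conj z

/-- products over the vertices -/
theorem prod_cons {J : ℕ} (f : (Fin (J + 1) → Bool) → ℂ) :
    ∏ ω, f ω = ∏ ω : Fin J → Bool, f (Fin.cons false ω) * f (Fin.cons true ω) := by
  rw [← (Fin.consEquiv (fun _ : Fin (J + 1) => Bool)).prod_comp, Fintype.prod_prod_type,
    Fintype.prod_bool, mul_comm, ← Finset.prod_mul_distrib]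
  rfl

/-- sums over the boxes -/
theorem sum_Bx_succ (J H : ℕ) (f : (Fin (J + 1) → Bool → ℕ) → ℝ) :
    ∑ t ∈ Bx (J + 1) H, f t = ∑ x ∈ range H, ∑ y ∈ range H, ∑ t ∈ Bx J H,
      f (Fin.cons (fun e => if e = true then y else x) t : Fin (J + 1) → Bool → ℕ) := by
  rw [← Finset.sum_product', ← Finset.sum_product']
  refine Finset.sum_nbij' (fun t => ((t 0 false, t 0 true), Fin.tail t))
    (fun p => Fin.cons (fun e => if e = true then p.1.2 else p.1.1) p.2) ?_ ?_ ?_ ?_ ?_
  · intro t ht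
    simp only [Bx, Fintype.mem_piFinset] at ht
    simp only [Bx, Finset.mem_product, Fintype.mem_piFinset]
    exact ⟨⟨ht 0 false, ht 0 true⟩, fun j e => ht j.succ e⟩
  · intro p hp
    simp only [Bx, Finset.mem_product, Fintype.mem_piFinset] at hp
    simp only [Bx, Fintype.mem_piFinset]
    intro j
    refine Fin.cases ?_ (fun j => ?_) j
    · intro e
      rw [Fin.cons_zero]
      cases e
      · simpa using hp.1.1
      · simpa using hp.1.2
    · intro e
      rw [Fin.cons_succ]
      exact hp.2 j e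
  · intro t _
    funext j
    refine Fin.cases ?_ (fun j => ?_) j
    · funext e
      cases e <;> simp
    · rfl
  · intro p _
    simp
  · intro t _
    congr 1
    funext j
    refine Fin.cases ?_ (fun j => ?_) j
    · funext e
      cases e <;> simp
    · rfl

/-- the box average as a sum over boxes -/
theorem DZ_eq (c H K J : ℕ) : ∀ (Φ : ℤ → ℂ) (m : ℤ),
    DZ c H K J Φ m = (∑ t ∈ Bx J H, ‖(∑ k ∈ range K, ∏ ω : Fin J → Bool,
      cv ω (Φ (m + c * (∑ j, (t j (ω j) : ℤ)) + k + 1))) / K‖ ^ 2) / (H : ℝ) ^ (2 * J) := by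
  induction J with
  | zero =>
    intro Φ m
    have e : Bx 0 H = {fun j => j.elim0} := by
      ext t
      simp only [Bx, Fintype.mem_piFinset, Finset.mem_singleton]
      constructor
      · intro _
        funext j
        exact j.elim0
      · intro _ j
        exact j.elim0
    rw [e, Finset.sum_singleton]
    simp only [DZ, Fintype.prod_unique, cv_zero, Finset.univ_eq_empty, Finset.sum_empty, mul_zero,
      add_zero, pow_zero, div_one]
  | succ J ih =>
    intro Φ m
    rw [DZ, sum_Bx_succ, show 2 * (J + 1) = 2 * J + 2 by ring, pow_add, ← div_div]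
    congr 1
    rw [Finset.sum_div]
    apply Finset.sum_congr rfl
    intro x _
    rw [Finset.sum_div]
    apply Finset.sum_congr rfl
    intro y _
    rw [ih]
    congr 1
    apply Finset.sum_congr rfl
    intro t _
    congr 3
    apply Finset.sum_congr rfl
    intro k _
    rw [prod_cons]
    apply Finset.prod_congr rfl
    intro ω _
    rw [cv_cons_false, cv_cons_true, ← cv_mul]
    congr 1
    rw [Fin.sum_univ_succ, Fin.sum_univ_succ]
    simp only [Fin.cons_zero, Fin.cons_succ, if_true, Bool.false_eq_true, if_false]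
    congr 2
    · ring
    · congr 1
      ring

theorem Phi_step (u : Bool × Bool → ℂ) (w : ℕ → Bool × Bool) (Φ : ℤ → ℂ) (m : ℤ)
    (h : ∀ i : ℕ, Φ (m + i + 1) = Φ (m + i) * u (w i)) (p k : ℕ) :
    Φ (m + p + k) = Φ (m + p) * ∏ i ∈ range k, u (w (i + p)) := by
  induction k with
  | zero => simp
  | succ k ih =>
    rw [Finset.prod_range_succ, ← mul_assoc, ← ih]
    have := h (k + p)
    push_cast at this
    rw [show m + (p : ℤ) + ((k + 1 : ℕ) : ℤ) = m + (k + p) + 1 by push_cast; ring, this,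
      show m + (k + p : ℤ) = m + p + k by ring]

theorem pf_BRW : T_BRW := by
  intro u c J H K w Φ m _ _ _ hΦ hs
  rw [DZ_eq, DG]
  congr 1
  apply Finset.sum_congr rfl
  intro t _
  congr 1
  have e1 : ∀ k ∈ range K, ∏ ω : Fin J → Bool,
      cv ω (Φ (m + c * (∑ j, (t j (ω j) : ℤ)) + k + 1)) =
      (∏ ω : Fin J → Bool, cv ω (Φ (m + (ps c t ω : ℕ)))) * Pr u (bl c t w) 0 (k + 1) := by
    intro k _
    have e2 : Pr u (bl c t w) 0 (k + 1) =
        ∏ ω : Fin J → Bool, cv ω (∏ i ∈ range (k + 1), u (w (i + ps c t ω))) := by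
      unfold Pr st bl
      simp_rw [cv_prod]
      rw [Finset.prod_comm]
      simp only [zero_add]
    rw [e2, ← Finset.prod_mul_distrib]
    apply Finset.prod_congr rfl
    intro ω _
    rw [← cv_mul, ← Phi_step u w Φ m hs (ps c t ω) (k + 1)]
    congr 2
    unfold ps
    push_cast
    ring
  rw [Finset.sum_congr rfl e1, ← Finset.mul_sum, mul_div_assoc, norm_mul, norm_prod]
  rw [Finset.prod_eq_one (fun ω _ => by rw [norm_cv, hΦ]), one_mul]
  rfl

end Pool.Agent.H97.GNG
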